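import Mathlib
import Pool.Agent.W786.Ls.Stm

set_option autoImplicit false

/-!
# Project LS (MP_b7167f_an): the Gaussian weighted operator is a sum of translates of a Gaussian
-/

namespace Pool.Agent.W839.LS

open MeasureTheory Set Complex
open scoped ENNReal NNReal
open Pool.Agent.W786.Ls

/-- the quadratic coefficient -/
noncomputable def bb (t : ℝ) : ℂ := -Real.pi * (1 - 2 * t * I)

theorem bb_re (t : ℝ) : (bb t).re < 0 := by
  have : (bb t).re = -Real.pi := by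
    simp [bb]
  rw [this]
  linarith [Real.pi_pos]

/-- the linear coefficient -/
noncomputable def cc (a y : ℝ) (k : ℤ) : ℂ := 2 * Real.pi * a + Real.pi * k * I + 2 * Real.pi * y * I

theorem one_var (t a y : ℝ) (k : ℤ) (v : ℝ) :
    ((Real.exp (-Real.pi * (v - a) ^ 2) : ℝ) : ℂ) * cexp (Real.pi * I * ((k : ℝ) * v : ℝ)) *
      qe y t v = cexp (bb t * v ^ 2 + cc a y k * v + (-Real.pi * a ^ 2)) := by
  rw [Complex.ofReal_exp, qe, ← Complex.exp_add, ← Complex.exp_add]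
  congr 1
  unfold bb cc
  push_cast
  ring

/-- the constant -/
noncomputable def G0 (t : ℝ) : ℂ := ((Real.pi : ℂ) / -bb t) ^ (1 / 2 : ℂ)

theorem ne_tI (t : ℝ) : (1 - 2 * t * I : ℂ) ≠ 0 := by
  intro h
  have := congrArg Complex.re h
  simp at this

theorem norm_G0 (t : ℝ) : ‖G0 t‖ = (1 + 4 * t ^ 2) ^ (-(1 : ℝ) / 4) := by
  have h1 : (1 / 2 : ℂ) = ((1 / 2 : ℝ) : ℂ) := by push_cast; rfl
  have h2 : ((Real.pi : ℂ) / -bb t) = (1 - 2 * t * I)⁻¹ := by
    unfold bb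
    have hpi : (Real.pi : ℂ) ≠ 0 := by exact_mod_cast Real.pi_ne_zero
    have := ne_tI t
    field_simp
  have h3 : ‖(1 - 2 * t * I : ℂ)‖ = Real.sqrt (1 + 4 * t ^ 2) := by
    rw [Complex.norm_def]
    congr 1
    rw [Complex.normSq_apply]
    simp
    ring
  have h0 : (0 : ℝ) ≤ 1 + 4 * t ^ 2 := by positivity
  rw [G0, h1, Complex.norm_cpow_real, h2, norm_inv, h3, Real.sqrt_eq_rpow, ← Real.rpow_neg h0,
    ← Real.rpow_mul h0]
  congr 1
  norm_num

theorem expo (P a y k t : ℂ) (hP : P ≠ 0) (h : (1 - 2 * t * I : ℂ) ≠ 0) :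
    -P * a ^ 2 - (2 * P * a + P * k * I + 2 * P * y * I) ^ 2 / (4 * (-P * (1 - 2 * t * I))) =
      2 * P * I * (a * y + a ^ 2 * t) + (P * I * (k * a) +
        -(P * (y + 2 * a * t + k / 2) ^ 2) / (1 - 2 * t * I)) := by
  have hI : (I : ℂ) ^ 2 = -1 := Complex.I_sq
  have e1 : (2 * P * a + P * k * I + 2 * P * y * I) ^ 2 / (4 * (-P * (1 - 2 * t * I))) =
      -(P * (a + (y + k / 2) * I) ^ 2) / (1 - 2 * t * I) := by
    field_simp
    ring
  rw [e1]
  have e3 : P * (a + (y + k / 2) * I) ^ 2 + P * (y + 2 * a * t + k / 2) ^ 2 =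
      (P * a ^ 2 + 2 * P * I * (a * y + a ^ 2 * t) + P * I * (k * a)) * (1 - 2 * t * I) := by
    linear_combination (P * (y + k / 2) ^ 2 + 4 * P * t * (a * y + a ^ 2 * t) + 2 * P * t * (k * a)) * hI
  have e4 : -(P * (a + (y + k / 2) * I) ^ 2) =
      P * (y + 2 * a * t + k / 2) ^ 2 -
        (P * a ^ 2 + 2 * P * I * (a * y + a ^ 2 * t) + P * I * (k * a)) * (1 - 2 * t * I) := by
    rw [← e3]
    ring
  have e5 : (P * a ^ 2 + 2 * P * I * (a * y + a ^ 2 * t) + P * I * (k * a)) * (1 - 2 * t * I) /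
      (1 - 2 * t * I) = P * a ^ 2 + 2 * P * I * (a * y + a ^ 2 * t) + P * I * (k * a) :=
    mul_div_cancel_right₀ _ h
  rw [e4, sub_div, e5]
  ring

theorem int_one (t a y : ℝ) (k : ℤ) :
    ∫ v : ℝ, ((Real.exp (-Real.pi * (v - a) ^ 2) : ℝ) : ℂ) *
      cexp (Real.pi * I * ((k : ℝ) * v : ℝ)) * qe y t v =
      G0 t * cexp (2 * Real.pi * I * ((a * y + a ^ 2 * t : ℝ) : ℂ)) *
        (cexp (Real.pi * I * ((k : ℝ) * a : ℝ)) * Phi t (y + 2 * a * t + (k : ℝ) / 2)) := by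
  simp only [one_var]
  rw [integral_cexp_quadratic (bb_re t), G0, Phi, ← Complex.exp_add, mul_assoc, ← Complex.exp_add]
  congr 2
  unfold cc bb
  have hpi : (Real.pi : ℂ) ≠ 0 := by exact_mod_cast Real.pi_ne_zero
  have h := expo Real.pi a y k t hpi (ne_tI t)
  push_cast
  exact h

theorem integrable_one (t a y : ℝ) (k : ℤ) :
    Integrable fun v : ℝ => ((Real.exp (-Real.pi * (v - a) ^ 2) : ℝ) : ℂ) *
      cexp (Real.pi * I * ((k : ℝ) * v : ℝ)) * qe y t v := by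
  simp only [one_var]
  exact integrable_cexp_quadratic' (bb_re t) _ _

theorem ek_eq {m : ℕ} (k : Fin m → ℤ) (v : Fin m → ℝ) :
    ek k v = ∏ j, cexp (Real.pi * I * ((k j : ℝ) * v j : ℝ)) := by
  rw [ek, ← Complex.exp_sum]
  congr 1
  push_cast
  rw [Finset.mul_sum]

theorem term_eq {m : ℕ} (t : ℝ) (a y : Fin m → ℝ) (k : Fin m → ℤ) (v : Fin m → ℝ) :
    ((∏ j, Real.exp (-Real.pi * (v j - a j) ^ 2) : ℝ) : ℂ) * ek k v * em y t v =
      ∏ j, (((Real.exp (-Real.pi * (v j - a j) ^ 2) : ℝ) : ℂ) *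
      cexp (Real.pi * I * ((k j : ℝ) * v j : ℝ)) * qe (y j) t (v j)) := by
  rw [ek_eq, Pool.Agent.W786.Ls.em, Complex.ofReal_prod, ← Finset.prod_mul_distrib, ← Finset.prod_mul_distrib]

theorem gau1 : Gau1Stm := by
  intro m t a y S c
  have hint : ∀ k : Fin m → ℤ, Integrable fun v : Fin m → ℝ =>
      ((∏ j, Real.exp (-Real.pi * (v j - a j) ^ 2) : ℝ) : ℂ) * ek k v * em y t v := by
    intro k
    simp only [term_eq]
    exact Integrable.fintype_prod_dep (f := fun j (v : ℝ) =>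
      ((Real.exp (-Real.pi * (v - a j) ^ 2) : ℝ) : ℂ) *
      cexp (Real.pi * I * ((k j : ℝ) * v : ℝ)) * qe (y j) t v)
      (fun j => integrable_one t (a j) (y j) (k j))
  have hval : ∀ k : Fin m → ℤ, ∫ v : Fin m → ℝ,
      ((∏ j, Real.exp (-Real.pi * (v j - a j) ^ 2) : ℝ) : ℂ) * ek k v * em y t v =
      (∏ j, (G0 t * cexp (2 * Real.pi * I * ((a j * y j + a j ^ 2 * t : ℝ) : ℂ)))) *
        (ek k a * ∏ j, Phi t (y j + 2 * a j * t + (k j : ℝ) / 2)) := by
    intro k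
    simp only [term_eq]
    rw [integral_fintype_prod_volume_eq_prod (f := fun j (v : ℝ) =>
      ((Real.exp (-Real.pi * (v - a j) ^ 2) : ℝ) : ℂ) *
      cexp (Real.pi * I * ((k j : ℝ) * v : ℝ)) * qe (y j) t v)]
    simp only [int_one]
    rw [Finset.prod_mul_distrib, Finset.prod_mul_distrib (f := fun j =>
      cexp (Real.pi * I * ((k j : ℝ) * a j : ℝ))), ek_eq]
  have hGG : GG t a S c y =
      (∏ j, (G0 t * cexp (2 * Real.pi * I * ((a j * y j + a j ^ 2 * t : ℝ) : ℂ)))) *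
        FF t S (fun k => c k * ek k a) (fun j => y j + 2 * a j * t) := by
    unfold GG FF trig
    have h1 : (fun v : Fin m → ℝ => ((∏ j, Real.exp (-Real.pi * (v j - a j) ^ 2) : ℝ) : ℂ) *
        (∑ k ∈ S, c k * ek k v) * em y t v) = fun v => ∑ k ∈ S, c k *
        (((∏ j, Real.exp (-Real.pi * (v j - a j) ^ 2) : ℝ) : ℂ) * ek k v * em y t v) := by
      funext v
      rw [Finset.mul_sum, Finset.sum_mul]
      refine Finset.sum_congr rfl fun k _ => ?_
      ring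
    rw [h1, integral_finsetSum S fun k _ => (hint k).const_mul _, Finset.mul_sum]
    refine Finset.sum_congr rfl fun k _ => ?_
    rw [integral_const_mul, hval]
    ring
  rw [hGG, norm_mul, norm_prod]
  congr 1
  have h2 : ∀ j, ‖G0 t * cexp (2 * Real.pi * I * ((a j * y j + a j ^ 2 * t : ℝ) : ℂ))‖ =
      (1 + 4 * t ^ 2) ^ (-(1 : ℝ) / 4) := by
    intro j
    have : (2 * Real.pi * I * ((a j * y j + a j ^ 2 * t : ℝ) : ℂ)) =
        ((2 * Real.pi * (a j * y j + a j ^ 2 * t) : ℝ) : ℂ) * I := by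
      push_cast
      ring
    rw [norm_mul, this, Complex.norm_exp_ofReal_mul_I, mul_one, norm_G0]
  simp only [h2]
  rw [Finset.prod_const, Finset.card_univ, Fintype.card_fin, ← Real.rpow_natCast, ← Real.rpow_mul
    (by positivity)]
  congr 1
  ring

end Pool.Agent.W839.LS
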